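import Pool.Agent.H33.EG.Exc
import Pool.Agent.H33.EG.Sm
import Pool.Agent.H33.EG.Rd
import Pool.Agent.H33.EG.Cheb
import Pool.Agent.H51.EG.Phi
import Pool.Agent.H51.EG.Final
import Pool.Agent.H51.EG.T.BETA
import Pool.Agent.H51.EG.T.CNT
import Pool.Agent.H51.EG.T.START
import Pool.Agent.H51.EG.T.REP
import Pool.Agent.H51.EG.T.UP

open Finset

namespace Pool.Agent.Results.MP_9dd88f_nt.LogLogOrder

/-- `F k` is the number of `k`-element sets `S` of positive integers with `∑_{n ∈ S} 1/n = 1`. -/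
noncomputable def F (k : ℕ) : ℕ :=
  {S : Finset ℕ | S.card = k ∧ (∀ n ∈ S, 0 < n) ∧ ∑ n ∈ S, (1 : ℚ) / n = 1}.ncard

theorem log_le_two_pow {k : ℕ} (hk : 1 ≤ k) : Real.log k * 2 ^ k ≤ Real.exp k := by
  have h1 : Real.log k ≤ k - 1 := by
    have := Real.log_le_sub_one_of_pos (by exact_mod_cast hk : (0 : ℝ) < k)
    linarith
  -- `(k - 1) 2^k ≤ e^k`
  have h2 : ∀ n : ℕ, ((n : ℝ) - 1) * 2 ^ n ≤ (27 / 10) ^ n := by
    intro n
    rcases Nat.lt_or_ge n 3 with h | h
    · interval_cases n <;> norm_num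
    · induction n, h using Nat.le_induction with
      | base => norm_num
      | succ n hn ih =>
        have hn' : (3 : ℝ) ≤ n := by exact_mod_cast hn
        have h3 : (0 : ℝ) < 2 ^ n := by positivity
        have h4 : (0 : ℝ) < (27 / 10) ^ n := by positivity
        rcases Nat.lt_or_ge n 4 with h5 | h5
        · have : n = 3 := by omega
          subst this
          norm_num
        · have h6 : (4 : ℝ) ≤ n := by exact_mod_cast h5
          push_cast
          rw [pow_succ, pow_succ]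
          nlinarith [mul_pos h3 (by linarith : (0 : ℝ) < n)]
  have h3 : (27 / 10 : ℝ) ^ k ≤ Real.exp k := by
    have h4 : (27 / 10 : ℝ) ≤ Real.exp 1 := by
      have := Real.exp_one_gt_d9
      linarith
    calc (27 / 10 : ℝ) ^ k ≤ (Real.exp 1) ^ k := pow_le_pow_left₀ (by norm_num) h4 k
      _ = Real.exp k := by rw [← Real.exp_nat_mul]; simp
  calc Real.log k * 2 ^ k ≤ (k - 1) * 2 ^ k := mul_le_mul_of_nonneg_right h1 (by positivity)
    _ ≤ (27 / 10) ^ k := h2 k
    _ ≤ Real.exp k := h3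

open Pool.Agent.H51.EG in
/-- `log log F(k)` is of exact order `k`: `exp (exp (k / 10^10)) ≤ F k` for `k ≥ 10^11` and
`F k ≤ exp (exp k)` for `k ≥ 1` (all the sets counted by `F` form finite sets). -/
theorem result :
    (∀ k : ℕ, {S : Finset ℕ | S.card = k ∧ (∀ n ∈ S, 0 < n) ∧
      ∑ n ∈ S, (1 : ℚ) / n = 1}.Finite) ∧
    (∀ k : ℕ, 10 ^ 11 ≤ k → Real.exp (Real.exp ((k : ℝ) / 10 ^ 10)) ≤ (F k : ℝ)) ∧
    (∀ k : ℕ, 1 ≤ k → (F k : ℝ) ≤ Real.exp (Real.exp (k : ℝ))) := by
  refine ⟨T.TAK.fin, ?_, ?_⟩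
  · intro k hk
    have hSM := Pool.Agent.H33.EG.sm
    have hST := T.START.main T.EXP.main T.FEJ.main
    have h := lower_exp (fun a ha k hk => lower hSM phi Pool.Agent.H33.EG.rd Pool.Agent.H33.EG.exc
      T.REP.main Pool.Agent.H33.EG.cheb hST T.BETA.main T.CNT.main ha k hk) k (by
        have : (10 : ℕ) ^ 11 = 100000000000 := by norm_num
        omega)
    exact h
  · intro k hk
    have h := T.UP.main k hk
    have h1 : (F k : ℝ) ≤ ((k ^ (2 ^ k) : ℕ) : ℝ) := by exact_mod_cast h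
    refine h1.trans ?_
    push_cast
    have hk0 : (0 : ℝ) < k := by exact_mod_cast hk
    have h2 : (k : ℝ) ^ (2 ^ k) = Real.exp (Real.log k * 2 ^ k) := by
      rw [Real.exp_mul, Real.exp_log hk0]
      norm_cast
    rw [h2]
    exact Real.exp_le_exp.2 (log_le_two_pow hk)

end Pool.Agent.Results.MP_9dd88f_nt.LogLogOrder
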